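import Pool.Agent.L0h10.TS.Data
import Pool.Agent.L0h10.TM.Grd3

/-!
# The coordinates of the cohomology of an abelian variety: degrees
-/

set_option linter.unusedSectionVars false

open CategoryTheory AlgebraicGeometry TensorProduct

universe u

namespace Pool.Agent.L0h10.TM

open Module Matrix Pool.Agent.N996.BP
open Pool.Agent.H914 Pool.Agent.H914.VarClass Pool.Agent.H914.VarClass.Obj
  Pool.Agent.H914.WeilCohomology
open Pool.Agent.Y133.Half Pool.Agent.Y121.AH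
open Pool.Agent.N996.BP.Geo Pool.Agent.N996.FP Pool.Agent.N996.FP.Geo Pool.Agent.L0h10.TS

/-- The structure constants respect the degrees. -/
lemma graded_gdata {K : Type} [Field K] [CharZero K] [Algebra K ℂ] {B : Type} [Ring B]
    [Algebra K B] {ι : Type} [Fintype ι] [DecidableEq ι] {H : HData ι} (G : GData K B H)
    (hmul : ∀ {i j : ℕ}, ∀ a ∈ G.gr i, ∀ b ∈ G.gr j, a * b ∈ G.gr (i + j))
    (hone : (1 : B) ∈ G.gr 0) : Graded G.toAData := by
  refine ⟨fun i j k h => ?_, ?_⟩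
  · by_contra h1
    apply h
    have h2 : G.e.repr (G.e i * G.e j) k = 0 :=
      repr_gr G.int G.hdeg (hmul _ (G.hdeg i) _ (G.hdeg j)) h1
    change G.rq (G.e.repr (G.e i * G.e j) k) = 0
    have h3 := G.rq_spec (G.e.repr (G.e i * G.e j) k)
    rw [h2] at h3 ⊢
    exact_mod_cast h3
  · by_contra h1
    have h2 : G.e.repr (1 : B) H.D.o = 0 := repr_gr G.int G.hdeg hone h1
    rw [← G.one, Basis.repr_self, Finsupp.single_eq_same] at h2
    exact one_ne_zero h2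

variable {k : Type u} [Field k] {𝒱 : VarClass k} {ops : CycleOps 𝒱} {T : HodgeTheory ops}
  {X Y : 𝒱.Obj} {ψ : LinearMap.BilinForm T.W.K (T.W.H X)}

/-- **The coordinates.** -/
theorem exists_data2 [Nontrivial (T.W.H X)] (hψ : IsPHS (tauT T) (Fx T X) ψ X.dim)
    (hgen : Algebra.adjoin T.W.K (T.W.gr X 1 : Set (T.W.H X)) = ⊤)
    (hb : finrank T.W.K (T.W.gr X 1) = 2 * X.dim) :
    ∃ (ι : Type) (_ : Fintype ι) (_ : DecidableEq ι) (e : Basis ι T.W.K (T.W.H X)) (H : HData ι)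
      (A : Type) (_ : Ring A) (_ : Algebra ℂ A) (D : AData H A),
      (∀ j, e j ∈ T.W.gr X (D.deg j)) ∧
      (∃ v : Fin (finrank ℂ D.V) → D.V, pL D.L v ≠ 0) ∧
      cQ D.pr1 * cQ H.Qir = cQ H.Qir * (cQ D.pr1)ᵀ ∧
      (∀ i j, D.deg i ≠ D.deg j → H.Qir i j = 0) ∧
      (∀ n (a : (Fin (n + 1) → ι) → ℚ),
        cls e n a ∈ (hodgePred T).sp (pw X n) ↔ a ∈ BB H (Fin (n + 1))) ∧
      ((∀ f, Cen1 T X f → ∀ c ∈ T.W.gr X 1, ∀ d ∈ T.W.gr X 1, ψ (f c) d = ψ c (f d)) →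
        ∀ x : Matrix ι ι ℚ, D.IsCE x → cQ x * cQ H.Qir = cQ H.Qir * (cQ x)ᵀ) ∧
      Graded D ∧ finrank ℂ D.V = 2 * X.dim := by
  classical
  obtain ⟨ι, _, _, e, o, deg, heo, hdeg⟩ := exists_ubasis T.W X
  have ho : (1 : ℂ) ⊗ₜ[T.W.K] e o ∈ Fx T X (0, 0) := by
    rw [heo]
    have h1 := (isHodge_one (T := T) (X := X)).2
    exact h1
  obtain ⟨H, hHo, hHw, hH, r, hr, hQ⟩ := hψ.exists_hdata2 e o ho
  have ho1 : e H.D.o = 1 := by rw [hHo, heo]
  have htop : ∃ v : Fin (finrank ℂ (DD hψ hdeg ho1 hH hgen).V) → (DD hψ hdeg ho1 hH hgen).V,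
      pL (DD hψ hdeg ho1 hH hgen).L v ≠ 0 := by
    obtain ⟨v, hv, hv0⟩ := exists_topc hgen
    have hfin : finrank T.W.K ((gdata e hdeg ho1 hH hgen).gr 1) = 2 * X.dim := hb
    have key : ∀ m, m = 2 * X.dim → ∃ v : Fin m → T.W.H X,
        (∀ i, v i ∈ (gdata e hdeg ho1 hH hgen).gr 1) ∧ (List.ofFn v).prod ≠ 0 := by
      rintro m rfl
      exact ⟨v, hv, hv0⟩
    obtain ⟨v, hv, hv0⟩ := key _ hfin
    exact (gdata e hdeg ho1 hH hgen).exists_top v hv hv0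
  refine ⟨ι, inferInstance, inferInstance, e, H, ℂ ⊗[T.W.K] T.W.H X, inferInstance, inferInstance,
    DD hψ hdeg ho1 hH hgen, hdeg, htop, pr1_adj hψ hdeg ho1 hH hgen hQ,
    fun i j h => Q_gr hψ hdeg hQ i j h, fun n a => inv_iff.symm.trans (inv_cls e hH n a),
    fun hadj x hx => ce_adj hψ hdeg ho1 hH hgen hQ hadj hx, ?_,
    ((gdata e hdeg ho1 hH hgen).finrank_V).trans hb⟩
  exact graded_gdata (gdata e hdeg ho1 hH hgen) (fun a ha b hb => T.W.mul_mem ha hb) (T.W.one_mem X)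

end Pool.Agent.L0h10.TM
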