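import Pool.Agent.L0h10.TS.Main
import Pool.Agent.L0h10.TM.Data2

/-!
# The hypotheses in coordinates: the middle degree
-/

set_option linter.unusedSectionVars false

open CategoryTheory AlgebraicGeometry TensorProduct Matrix

universe u v

namespace Pool.Agent.L0h10.TM

open Module
open Pool.Agent.H914 Pool.Agent.H914.VarClass Pool.Agent.H914.VarClass.Obj
  Pool.Agent.H914.WeilCohomology
open Pool.Agent.Y121.AHS
open Pool.Agent.Y133.Half (pw pfst psnd wb wb_zero ClassPred)
open Pool.Agent.Y121.AH (hodgePred)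
open Pool.Agent.N996.BP Pool.Agent.N996.FP Pool.Agent.N996.BP.Geo Pool.Agent.L0h10.TS

variable {k : Type u} [Field k] {𝒱 : VarClass k} {ops : CycleOps 𝒱} {T : HodgeTheory ops}
  {X : 𝒱.Obj} {L Ω : Type} [Field L] [Field Ω] [Algebra T.W.K L] [Algebra T.W.K Ω] [Algebra L Ω]
  [IsScalarTower T.W.K L Ω] {Γ : Type v} [Group Γ] [TopologicalSpace Γ]
  {ι : Type} [Fintype ι] [DecidableEq ι] {e : Basis ι T.W.K (T.W.H X)} {H : HData ι}
  {A : Type} [Ring A] [Algebra ℂ A] {D : AData H A}

/-- The class `x` on `X × X` is a combination of the products `a × b` with `a`, `b` of degree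
`g`. -/
def IsMid (g : ℕ) (x : HL T.W L (pw X 1)) : Prop :=
  IsComb L (fun y => ∃ (a : HL T.W L (pw X 0)) (b : HL T.W L X), IsDeg g a ∧ IsDeg g b ∧
    TS.cross a b = y) x

/-- The Tate classes of bidegree `(g, g)` on `X × X` are combinations of Hodge classes. -/
def Mid (G : GaloisAction T X Γ L) (g : ℕ) : Prop := ∀ x : HL T.W L (pw X 1), IsTate G 1 g x →
  IsMid g x → IsComb L (fun y => ∃ c, IsHodge T (pw X 1) g c ∧ emL T.W L c = y) x

/-- Combinations of Hodge classes in coordinates. -/
lemma span_hod [CharZero L] (hB : ∀ n (a : (Fin (n + 1) → ι) → ℚ),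
      cls (T := toH T) e n a ∈ (hodgePred (toH T)).sp (pw X n) ↔ a ∈ BB H (Fin (n + 1)))
    {n p : ℕ} {x : HL T.W L (pw X n)}
    (hx : x ∈ Submodule.span L {y | ∃ c, IsHodge T (pw X n) p c ∧ emL T.W L c = y}) :
    (ve L e n).symm x ∈ Submodule.span L (cL L '' (BB H (Fin (n + 1)) : Set _)) := by
  induction hx using Submodule.span_induction with
  | mem x hx =>
    obtain ⟨z, hz, rfl⟩ := hx
    obtain ⟨a, ha, h1⟩ := sp_cl (L := L) hB (isHodge_sp hz)
    rw [h1, LinearEquiv.symm_apply_apply]
    exact Submodule.subset_span ⟨a, ha, rfl⟩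
  | zero => rw [map_zero]; exact Submodule.zero_mem _
  | add x y _ _ hx hy => rw [map_add]; exact Submodule.add_mem _ hx hy
  | smul c x _ hx => rw [map_smul]; exact Submodule.smul_mem _ _ hx

/-- Arrays of bidegree `(g, g)`. -/
lemma mid_ve (hdeg : ∀ j, e j ∈ T.W.gr X (D.deg j)) {g : ℕ} {a : (Fin (1 + 1) → ι) → L}
    (ha : ∀ w, a w ≠ 0 → D.deg (w 0) = g ∧ D.deg (w 1) = g) :
    IsMid (T := T) (X := X) g (ve L e 1 a) := by
  have h1 : ve L e 1 a = ∑ w : Fin (0 + 1) → ι, ∑ i : ι,
      a (Fin.snoc (α := fun _ => ι) w i) • ve L e 1 (sn1 (Pi.single w 1) (Pi.single i 1)) := by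
    conv_lhs => rw [ve_succ 0 a]
    rw [map_sum]
    refine Finset.sum_congr rfl fun w _ => ?_
    rw [map_sum]
    refine Finset.sum_congr rfl fun i _ => ?_
    rw [map_smul]
  rw [h1]
  refine Submodule.sum_mem _ fun w _ => Submodule.sum_mem _ fun i _ => ?_
  by_cases h2 : a (Fin.snoc (α := fun _ => ι) w i) = 0
  · rw [h2, zero_smul]
    exact Submodule.zero_mem _
  · refine Submodule.smul_mem _ _ (Submodule.subset_span ?_)
    obtain ⟨h3, h4⟩ := ha _ h2
    have h5 : D.deg (w 0) = g := by
      have h6 : (Fin.snoc (α := fun _ => ι) w i : Fin (0 + 1 + 1) → ι) 0 = w 0 := rfl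
      rw [← h6]
      exact h3
    have h6 : D.deg i = g := by
      have h7 : (Fin.snoc (α := fun _ => ι) w i : Fin (0 + 1 + 1) → ι) 1 = i := rfl
      rw [← h7]
      exact h4
    refine ⟨ve L e 0 (Pi.single w 1), vB L e (Pi.single i 1), ?_, ?_, cross_ve e 0 _ _⟩
    · refine (isDeg_ve hdeg).2 fun v hv => ?_
      have h7 : v = w := by
        by_contra h8
        exact hv (Pi.single_eq_of_ne h8 _)
      rw [h7, Fin.sum_univ_one, h5]
    · refine (isDeg_vB hdeg).2 fun v hv => ?_
      have h7 : v = i := by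
        by_contra h8
        exact hv (Pi.single_eq_of_ne h8 _)
      rw [h7, h6]

variable (G : GaloisAction T X Γ L) (hdeg : ∀ j, e j ∈ T.W.gr X (D.deg j))

/-- **The hypotheses.** -/
theorem hyp_of2 [CharZero L] (hQ : ∀ i j, D.deg i ≠ D.deg j → H.Qir i j = 0)
    (hB : ∀ n (a : (Fin (n + 1) → ι) → ℚ),
      cls (T := toH T) e n a ∈ (hodgePred (toH T)).sp (pw X n) ↔ a ∈ BB H (Fin (n + 1)))
    (θ : Ω ≃+* ℂ) [Algebra.IsAlgebraic L Ω] (h1 : HodgeClassesAreTate G)
    (h2 : ActsSemisimply G) (h3 : WeakHodgeOperatorsGenerate Ω G) {g : ℕ} (hT : Mid G g) :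
    Hyp2 D (jj L θ) (toRep G e hdeg) g where
  alg z := by
    obtain ⟨p, hp, h4⟩ := Algebra.IsAlgebraic.isAlgebraic (R := L) (θ.symm z)
    refine ⟨p, hp, ?_⟩
    have h5 := Polynomial.hom_eval₂ p (algebraMap L Ω) (θ : Ω →+* ℂ) (θ.symm z)
    have h6 : p.eval₂ (algebraMap L Ω) (θ.symm z) = 0 := h4
    rw [h6, map_zero] at h5
    have h7 : (θ : Ω →+* ℂ) (θ.symm z) = z := θ.apply_symm_apply z
    rw [h7] at h5
    exact h5.symm
  hH n a ha := by
    have h4 := (hB n a).2 ha
    have key : ∀ c ∈ (hodgePred (toH T)).sp (pw X n), (ve L e n).symm (emL T.W L c) ∈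
        Submodule.span L {a | (toRep G e hdeg).IsT n a} := by
      intro c hc
      refine ClassPred.sp_ind (Q := hodgePred (toH T)) (q := fun c =>
        (ve L e n).symm (emL T.W L c) ∈ Submodule.span L {a | (toRep G e hdeg).IsT n a})
        ?_ ?_ ?_ hc
      · intro j c hc
        refine Submodule.subset_span ((isT_iff G e hdeg).2 ⟨j, ?_⟩)
        rw [LinearEquiv.apply_symm_apply]
        exact h1 n j c hc
      · have h5 : emL T.W L (0 : T.W.H (pw X n)) = 0 := emL_zero
        change (ve L e n).symm (emL T.W L (0 : T.W.H (pw X n))) ∈ _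
        rw [h5, map_zero]
        exact Submodule.zero_mem _
      · intro a b ha hb
        have h5 : emL T.W L ((show T.W.H (pw X n) from a) + (show T.W.H (pw X n) from b)) =
          emL T.W L a + emL T.W L b := emL_add _ _
        change (ve L e n).symm (emL T.W L ((show T.W.H (pw X n) from a) +
          (show T.W.H (pw X n) from b))) ∈ _
        rw [h5, map_add]
        exact Submodule.add_mem _ ha hb
    have h5 := key _ h4
    have h6 : emL T.W L (clw e n a) = ve L e n (cL L a) := emL_clw e n a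
    change (ve L e n).symm (emL T.W L (clw e n a)) ∈ _ at h5
    rwa [h6, LinearEquiv.symm_apply_apply] at h5
  hT a ha hbi := by
    have h4 := span_hod hB (hT _ ((isTp_iff G e hdeg).1 ha) (mid_ve hdeg hbi))
    rwa [LinearEquiv.symm_apply_apply] at h4
  hP a ha := by
    obtain ⟨b, hb⟩ : ∃ b : (Fin (1 + 1) → ι) → Ω, b = fun w => θ.symm (a w) := ⟨_, rfl⟩
    have hab : a = fun w => θ (b w) := by
      funext w
      rw [hb, RingEquiv.apply_symm_apply]
    have h4 := h3 (ve Ω e 1 b) fun E hE => by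
      have h5 := ha _ (weak_Gs G hdeg θ hE)
      rw [hab, ← opOf_kill (e := e), ← inf_eq hE.inf] at h5
      exact h5
    have key : ∀ x ∈ Submodule.span Ω {y | ∃ (j : ℕ) (z : HL T.W L (pw X 1)),
        IsTate G 1 j z ∧ up Ω z = y}, (fun w => θ ((ve Ω e 1).symm x w)) ∈
        Submodule.span ℂ {x | ∃ b, (toRep G e hdeg).IsT 1 b ∧ x = fun w => jj L θ (b w)} := by
      intro x hx
      induction hx using Submodule.span_induction with
      | mem x hx =>
        obtain ⟨j, z, hz, rfl⟩ := hx
        obtain ⟨c, rfl⟩ := (ve L e 1).surjective z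
        refine Submodule.subset_span ⟨c, (isT_iff G e hdeg).2 ⟨j, hz⟩, ?_⟩
        funext w
        rw [up_ve, LinearEquiv.symm_apply_apply]
        rfl
      | zero =>
        have h5 : (fun w => θ ((ve Ω e 1).symm 0 w)) = 0 := by
          funext w
          rw [map_zero]
          exact map_zero θ
        rw [h5]
        exact Submodule.zero_mem _
      | add x y _ _ hx hy =>
        have h5 : (fun w => θ ((ve Ω e 1).symm (x + y) w)) =
            (fun w => θ ((ve Ω e 1).symm x w)) + fun w => θ ((ve Ω e 1).symm y w) := by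
          funext w
          rw [map_add]
          exact map_add θ _ _
        rw [h5]
        exact Submodule.add_mem _ hx hy
      | smul c x _ hx =>
        have h5 : (fun w => θ ((ve Ω e 1).symm (c • x) w)) =
            θ c • fun w => θ ((ve Ω e 1).symm x w) := by
          funext w
          rw [map_smul]
          exact map_mul θ _ _
        rw [h5]
        exact Submodule.smul_mem _ _ hx
    have h5 := key _ h4
    rw [LinearEquiv.symm_apply_apply, ← hab] at h5
    exact h5
  hss Δ U hU := ss_coord G e hdeg h2 Δ U hU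
  hQ := hQ

end Pool.Agent.L0h10.TM
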