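import Pool.Agent.L0h10.TM.Top2
import Pool.Agent.N996.FP.GAlg

/-!
# Families of gradings and the Hodge Lie algebra: only the middle degree is used
-/

set_option linter.unusedSectionVars false

namespace Pool.Agent.L0h10.TM

open Matrix Pool.Agent.N996.BP Pool.Agent.N996.FP Pool.Agent.L0h10.TS ComplexConjugate ComplexOrder

variable {ι : Type} [Fintype ι] [DecidableEq ι] {H : HData ι} {A : Type} [Ring A] [Algebra ℂ A]

lemma cji_add (x y : Matrix ι ι ℂ) : cji H (x + y) = cji H x + cji H y := by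
  rw [cji, cji, cji, Matrix.mul_add, Matrix.add_mul]

lemma trace_pr1 {D : AData H A} {g : ℕ} (hg : Module.finrank ℂ D.V = 2 * g) :
    (cQ D.pr1).trace = ((2 * g : ℕ) : ℂ) := by
  rw [← hg, finrank_supp (F := ℂ) (fun i => D.deg i = 1) D.V fun v => Iff.rfl, D.cQ_pr1,
    Matrix.trace_diagonal, Finset.sum_ite, Finset.sum_const_zero, add_zero, Finset.sum_const,
    nsmul_eq_mul, mul_one, Fintype.card_subtype]

lemma trace_skew {D : AData H A} (hP : cQ D.pr1 * cQ H.Qir = cQ H.Qir * (cQ D.pr1)ᵀ)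
    {y : Matrix ι ι ℂ} (hy : y ∈ D.dl) : (y * cQ D.pr1).trace = 0 := by
  have h5 : y * cQ H.Qir = -(cQ H.Qir * yᵀ) := by
    rw [eq_neg_iff_add_eq_zero]; exact hy.2.2
  have h6 : y * cQ D.pr1 = cQ D.pr1 * y := hy.2.1 _ D.pr1_HE
  have h1 : (y * cQ D.pr1).trace = -(y * cQ D.pr1).trace := by
    conv_lhs => rw [← Matrix.mul_one (y * cQ D.pr1), ← QiQ (H := H)]
    calc (y * cQ D.pr1 * (cQ H.Qir * cQ H.Qr)).trace =
        ((y * cQ H.Qir) * ((cQ D.pr1)ᵀ * cQ H.Qr)).trace := by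
          rw [← Matrix.mul_assoc, Matrix.mul_assoc y, hP]; simp only [Matrix.mul_assoc]
      _ = -(cQ H.Qir * (yᵀ * (cQ D.pr1)ᵀ * cQ H.Qr)).trace := by
          rw [h5, Matrix.neg_mul, Matrix.trace_neg]; simp only [Matrix.mul_assoc]
      _ = -((yᵀ * (cQ D.pr1)ᵀ) * (cQ H.Qr * cQ H.Qir)).trace := by
          rw [Matrix.trace_mul_comm]; simp only [Matrix.mul_assoc]
      _ = -(y * cQ D.pr1).trace := by
          rw [mul_eq_one_comm.1 (QiQ (H := H)), Matrix.mul_one, ← Matrix.transpose_mul,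
            Matrix.trace_transpose, h6]
  have h2 : (2 : ℂ) * (y * cQ D.pr1).trace = 0 := by
    rw [two_mul]
    nth_rewrite 1 [h1]
    exact neg_add_cancel _
  exact (mul_eq_zero.1 h2).resolve_left two_ne_zero

/-- A set of gradings: elements of the Hodge Lie algebra which have the eigenvalues one and minus
one on the degree one part, whose commutant in the degree `g` is spanned by Hodge endomorphisms and
which act semisimply. -/
structure IsGrad2 (D : AData H A) (g : ℕ) (S : Set (Matrix ι ι ℂ)) : Prop where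
  mem : ∀ y ∈ S, y ∈ ho H
  neg : ∀ y ∈ S, -y ∈ S
  sq : ∀ y ∈ S, y * y * cQ D.pr1 = cQ D.pr1
  comm : ∀ M : Matrix ι ι ℂ, (∀ y ∈ S, M * y = y * M) → cQ (prd D g) * M = M →
    M * cQ (prd D g) = M → M ∈ Submodule.span ℂ (cQ '' {x | IsHE H x})
  proj : ∀ W : Submodule ℂ (ι → ℂ), (∀ y ∈ S, ∀ v ∈ W, y *ᵥ v ∈ W) →
    ∃ E : Matrix ι ι ℂ, (∀ v, E *ᵥ v ∈ W) ∧ (∀ v ∈ W, E *ᵥ v = v) ∧ ∀ y ∈ S, E * y = y * E

namespace IsGrad2

variable {D : AData H A} {g : ℕ} {S : Set (Matrix ι ι ℂ)} (hS : IsGrad2 D g S)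
  (hG : Graded D) (hg : Module.finrank ℂ D.V = 2 * g)
  (htop : ∃ v : Fin (Module.finrank ℂ D.V) → D.V, pL D.L v ≠ 0)
  (hP : cQ D.pr1 * cQ H.Qir = cQ H.Qir * (cQ D.pr1)ᵀ)

include hS in
lemma le_ho : lsp S ≤ ho H := lsp_le hS.mem fun _ ha _ hb => ho_br ha hb

include hS in
lemma le_dl : lsp S ≤ D.dl := fun _ hx => D.ho_le_dl (hS.le_ho hx)

lemma span_comm {y : Matrix ι ι ℂ} (hy : y ∈ Submodule.span ℂ (cQ '' {x | IsHE H x}))
    {w : Matrix ι ι ℂ} (hw : w ∈ ho H) : w * y = y * w := by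
  induction hy using Submodule.span_induction with
  | mem x hx =>
    obtain ⟨y, hy, rfl⟩ := hx
    exact hy.comm_ho hw
  | zero => rw [Matrix.zero_mul, Matrix.mul_zero]
  | add a b _ _ ha hb => rw [Matrix.add_mul, Matrix.mul_add, ha, hb]
  | smul c a _ ha => rw [Matrix.smul_mul, Matrix.mul_smul, ha]

include hS hG hg in
/-- Derivations which commute with the gradings commute with the Hodge Lie algebra. -/
lemma comm_ho (htop : ∃ v : Fin (Module.finrank ℂ D.V) → D.V, pL D.L v ≠ 0)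
    {z : Matrix ι ι ℂ} (hz : z ∈ D.dl) (hc : ∀ y ∈ S, z * y = y * z)
    {t : Matrix ι ι ℂ} (ht : t ∈ ho H) : z * t = t * z := by
  have hp : ∀ w ∈ D.dl, w * cQ (prd D g) = cQ (prd D g) * w := fun w hw =>
    hw.2.1 _ (prd_HE (D := D) g)
  have h1 : z * cQ (prd D g) ∈ Submodule.span ℂ (cQ '' {x | IsHE H x}) := by
    refine hS.comm _ (fun y hy => ?_) ?_ ?_
    · rw [Matrix.mul_assoc, ← hp y (hS.le_dl (subset_lsp hy)), ← Matrix.mul_assoc, hc y hy,
        Matrix.mul_assoc]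
    · rw [← Matrix.mul_assoc, ← hp z hz, Matrix.mul_assoc, prd_sq]
    · rw [Matrix.mul_assoc, prd_sq]
  have h2 := span_comm h1 ht
  have h3 : br z t = 0 := by
    refine dl_zero_mid hG htop hg (D.dl_br hz (D.ho_le_dl ht)) ?_
    rw [br, Matrix.sub_mul, Matrix.mul_assoc z t, hp t (D.ho_le_dl ht), ← Matrix.mul_assoc,
      Matrix.mul_assoc t z, h2, sub_self]
  rw [br, sub_eq_zero] at h3
  exact h3

lemma span_dl {y : Matrix ι ι ℂ} (hy : y ∈ Submodule.span ℂ (cQ '' {x | IsHE H x}))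
    {w : Matrix ι ι ℂ} (hw : w ∈ D.dl) : w * y = y * w := by
  induction hy using Submodule.span_induction with
  | mem x hx =>
    obtain ⟨y, hy, rfl⟩ := hx
    exact hw.2.1 y hy
  | zero => rw [Matrix.zero_mul, Matrix.mul_zero]
  | add a b _ _ ha hb => rw [Matrix.add_mul, Matrix.mul_add, ha, hb]
  | smul c a _ ha => rw [Matrix.smul_mul, Matrix.mul_smul, ha]

include hS htop hP hG hg in
/-- Derivations of degree minus two. -/
lemma two {y : Matrix ι ι ℂ} (hy : y ∈ S) {X : Matrix ι ι ℂ} (hX : X ∈ D.dl)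
    (hXN : br y X = (-2 : ℂ) • X) : X ∈ lsp S := by
  have hN : cji H y ∈ nrm H (lsp S) := by
    rw [mem_nrm, cj_cji]
    exact subset_lsp hy
  have h1 : cji H X ∈ nrm H (lsp S) := by
    refine mem_top2 (h := nrm H (lsp S)) (h' := D.dn) (N := cji H y) (P := cji H (cQ D.pr1))
      ?_ D.isLA_dn ?_ (D.toPDl htop) hN (D.pr1n_herm hP) D.pr1n_mem
      (fun v hv => D.pr1n_Vn hv) (fun w hw => D.pr1n_dn hw) D.pr1n_mul ?_
      (fun w hw h0 => D.dn_zero hw h0) ?_ (G := cji H (cQ (prd D g))) ?_ ?_ ?_ ?_ ?_ ?_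
    · intro a ha b hb
      rw [mem_nrm, cj_br]
      exact lsp_br ha hb
    · intro x hx
      exact hS.le_dl hx
    · rw [← cji_mul, ← cji_mul, hS.sq y hy]
    · intro W hW
      let W' : Submodule ℂ (ι → ℂ) := W.comap (Matrix.mulVecLin (Mm H))
      have hW' : ∀ y ∈ S, ∀ v ∈ W', y *ᵥ v ∈ W' := by
        intro y hy v hv
        change Mm H *ᵥ (y *ᵥ v) ∈ W
        have h1 := hW (cji H y) (by rw [mem_nrm, cj_cji]; exact subset_lsp hy) _ hv
        change cji H y *ᵥ (Mm H *ᵥ v) ∈ W at h1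
        have h2 : cji H y *ᵥ (Mm H *ᵥ v) = Mm H *ᵥ (y *ᵥ v) := by
          rw [Matrix.mulVec_mulVec, Matrix.mulVec_mulVec, cji]
          congr 1
          rw [Matrix.mul_assoc (Mm H * y), Mi_Mm, Matrix.mul_one]
        rwa [h2] at h1
      obtain ⟨E, hE1, hE2, hE3⟩ := hS.proj W' hW'
      refine ⟨cji H E, fun v => ?_, fun v hv => ?_, fun a ha => ?_⟩
      · have h1 := hE1 (Mi H *ᵥ v)
        change Mm H *ᵥ (E *ᵥ (Mi H *ᵥ v)) ∈ W at h1
        rw [Matrix.mulVec_mulVec, Matrix.mulVec_mulVec] at h1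
        rw [cji]
        exact h1
      · have h1 := hE2 (Mi H *ᵥ v) (by
          change Mm H *ᵥ (Mi H *ᵥ v) ∈ W
          rw [Matrix.mulVec_mulVec, Mm_Mi, Matrix.one_mulVec]
          exact hv)
        have h2 := congrArg (fun x => Mm H *ᵥ x) h1
        simp only [Matrix.mulVec_mulVec, Mm_Mi, Matrix.one_mulVec] at h2
        rw [cji]
        rw [← Matrix.mul_assoc] at h2
        exact h2
      · have h1 := lsp_comm hE3 ha
        have h2 := congrArg (cji H) h1
        rwa [cji_mul, cji_mul, cji_cj] at h2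
    · rw [← cji_mul, prd_sq]
    · intro w hw
      have h1 := hw.2.1 _ (prd_HE (D := D) g)
      have h2 := congrArg (cji H) h1
      rw [cji_mul, cji_mul, cji_cj] at h2
      exact h2.symm
    · intro l v hl
      rw [← cji_mul, ← cji_add, ← cji_smul, ← cj_trace (H := H), cj_cji, Matrix.trace_smul,
        Matrix.trace_add, trace_pr1 hg, trace_skew hP (hS.le_dl (subset_lsp hy))] at hl
      have h1 : l = g := by
        have h2 : (l : ℂ) = g := by
          rw [hl, smul_eq_mul]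
          push_cast
          ring
        exact_mod_cast h2
      subst h1
      exact prd_pv hG htop v
    · intro w hw y hy hGy hyG
      have h3 : ∀ a ∈ S, cj H y * a = a * cj H y := by
        intro a ha
        have h4 := hy (cji H a) (by rw [mem_nrm, cj_cji]; exact subset_lsp ha)
        have h5 := congrArg (cj H) h4
        rwa [cj_mul, cj_mul, cj_cji] at h5
      have h4 : cQ (prd D g) * cj H y = cj H y := by
        have h5 := congrArg (cj H) hGy
        rwa [cj_mul, cj_cji] at h5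
      have h4' : cj H y * cQ (prd D g) = cj H y := by
        have h5 := congrArg (cj H) hyG
        rwa [cj_mul, cj_cji] at h5
      have h5 := span_dl (D := D) (hS.comm _ h3 h4 h4') hw
      have h6 := congrArg (cji H) h5
      rwa [cji_mul, cji_mul, cji_cj, cji_cj] at h6
    · rw [AData.mem_dn, cj_cji]
      exact hX
    · rw [← cji_br, hXN, cji_smul]
  rwa [mem_nrm, cj_cji] at h1

include hS htop hP hG hg in
/-- The bracket with a grading. -/
lemma brS {y : Matrix ι ι ℂ} (hy : y ∈ S) {X : Matrix ι ι ℂ} (hX : X ∈ D.dl) :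
    br y X ∈ lsp S := by
  obtain ⟨a, ha, b, hb, c, hc, -, ha', hb', hc', h1⟩ := exists_ad (h := D.dl) (h' := D.dl) le_rfl
    (fun a ha b hb => D.dl_br ha hb) (fun a ha b hb => D.dl_br ha hb)
    (D.ho_le_dl (hS.mem y hy)) (fun w hw => (hw.2.1 _ D.pr1_HE).symm) (hS.sq y hy)
    (fun w hw h0 => D.dl_zero' hw h0) hX
  rw [h1]
  refine Submodule.sub_mem _ (Submodule.smul_mem _ _ ?_)
    (Submodule.smul_mem _ _ (hS.two hG hg htop hP hy ha ha'))
  refine hS.two hG hg htop hP (hS.neg y hy) hc ?_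
  rw [br_neg_left, hc', neg_smul]

include hS htop hP hG hg in
/-- The Lie algebra generated by the gradings is an ideal. -/
theorem ideal {l : Matrix ι ι ℂ} (hl : l ∈ lsp S) {X : Matrix ι ι ℂ} (hX : X ∈ D.dl) :
    br l X ∈ lsp S := by
  let M : Submodule ℂ (Matrix ι ι ℂ) :=
    { carrier := {a | a ∈ D.dl ∧ ∀ X ∈ D.dl, br a X ∈ lsp S}
      add_mem' := by
        rintro a b ⟨h1, h2⟩ ⟨h3, h4⟩
        refine ⟨Submodule.add_mem _ h1 h3, fun X hX => ?_⟩
        have e : br (a + b) X = br a X + br b X := by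
          rw [br, br, br, Matrix.add_mul, Matrix.mul_add]; abel
        rw [e]
        exact Submodule.add_mem _ (h2 X hX) (h4 X hX)
      zero_mem' := by
        refine ⟨Submodule.zero_mem _, fun X _ => ?_⟩
        rw [br, Matrix.zero_mul, Matrix.mul_zero, sub_zero]
        exact Submodule.zero_mem _
      smul_mem' := by
        rintro c a ⟨h1, h2⟩
        refine ⟨Submodule.smul_mem _ _ h1, fun X hX => ?_⟩
        have e : br (c • a) X = c • br a X := by
          rw [br, br, Matrix.smul_mul, Matrix.mul_smul, smul_sub]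
        rw [e]
        exact Submodule.smul_mem _ _ (h2 X hX) }
  have h1 : lsp S ≤ M := lsp_le
    (fun y hy => ⟨D.ho_le_dl (hS.mem y hy), fun X hX => hS.brS hG hg htop hP hy hX⟩)
    fun a ha b hb => ⟨D.dl_br ha.1 hb.1, fun X hX => by
      rw [TS.br_jac]
      exact Submodule.sub_mem _ (ha.2 _ (hS.le_dl (hb.2 X hX)))
        (hb.2 _ (hS.le_dl (ha.2 X hX)))⟩
  exact (h1 hl).2 X hX

include hS htop hP hG hg in
/-- The orthogonal complement commutes with the Lie algebra generated by the gradings. -/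
theorem decomp {x : Matrix ι ι ℂ} (hx : x ∈ D.dl) :
    ∃ y ∈ lsp S, ∃ z ∈ D.dl, x = y + z ∧ ∀ l ∈ lsp S, z * l = l * z := by
  obtain ⟨y, hy, hort⟩ := exists_orthM (nrm H (lsp S)) (cji H x)
  obtain ⟨z, hz⟩ : ∃ z, z = cji H x - y := ⟨_, rfl⟩
  rw [← hz] at hort
  have hyd : y ∈ D.dn := hS.le_dl hy
  have hxd : cji H x ∈ D.dn := by rw [AData.mem_dn, cj_cji]; exact hx
  have hzd : z ∈ D.dn := by rw [hz]; exact Submodule.sub_mem _ hxd hyd
  have hid : ∀ l ∈ nrm H (lsp S), ∀ X ∈ D.dn, br l X ∈ nrm H (lsp S) := by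
    intro l hl X hX
    rw [mem_nrm, cj_br]
    exact hS.ideal hG hg htop hP hl hX
  have hort2 : ∀ l ∈ nrm H (lsp S), ∀ w ∈ nrm H (lsp S), (wᴴ * br l z).trace = 0 := by
    intro l hl w hw
    have hld : l ∈ D.dn := hS.le_dl hl
    have h1 : br w lᴴ ∈ nrm H (lsp S) := hid w hw _ (D.isLA_dn.star _ hld)
    have h2 := hort _ h1
    have h3 : (br w lᴴ)ᴴ = br l wᴴ := by
      rw [br, br, Matrix.conjTranspose_sub, Matrix.conjTranspose_mul, Matrix.conjTranspose_mul,
        Matrix.conjTranspose_conjTranspose]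
    rw [h3, br, Matrix.sub_mul, Matrix.trace_sub, sub_eq_zero] at h2
    rw [br, Matrix.mul_sub, Matrix.trace_sub, sub_eq_zero]
    calc (wᴴ * (l * z)).trace = (wᴴ * l * z).trace := by rw [Matrix.mul_assoc]
      _ = (l * wᴴ * z).trace := h2.symm
      _ = (wᴴ * (z * l)).trace := by
        rw [Matrix.mul_assoc, Matrix.trace_mul_comm l, Matrix.mul_assoc]
  have hcom : ∀ l ∈ nrm H (lsp S), z * l = l * z := by
    intro l hl
    have h1 := hort2 l hl _ (hid l hl z hzd)
    have h2 : br l z = 0 := Matrix.trace_conjTranspose_mul_self_eq_zero_iff.1 h1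
    rw [br, sub_eq_zero] at h2
    exact h2.symm
  refine ⟨cj H y, hy, cj H z, hzd, ?_, fun l hl => ?_⟩
  · have h1 : cji H x = y + z := by rw [hz]; abel
    have h2 := congrArg (cj H) h1
    rw [cj_cji] at h2
    rw [h2, cj, cj, cj, Matrix.mul_add, Matrix.add_mul]
  · have h1 := hcom (cji H l) (by rw [mem_nrm, cj_cji]; exact hl)
    have h2 := congrArg (cj H) h1
    rwa [cj_mul, cj_mul, cj_cji] at h2

include hS htop hP hG hg in
/-- **If the centre is self-adjoint, then the gradings generate the Hodge Lie algebra.** -/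
theorem eq_of_adj (hadj : ∀ x : Matrix ι ι ℚ, D.IsCE x → cQ x * cQ H.Qir = cQ H.Qir * (cQ x)ᵀ)
    {x : Matrix ι ι ℂ} (hx : x ∈ D.dl) : x ∈ lsp S := by
  obtain ⟨y, hy, z, hz, rfl, hc⟩ := hS.decomp hG hg htop hP hx
  have hz0 : z = 0 := by
    have h2 : ∀ g ∈ GG H, z * g = g * z := fun g hg' =>
      comm_GG (fun t ht => hS.comm_ho hG hg htop hz (fun a ha => hc a (subset_lsp ha)) ht)
        hg'
    have h3 := D.ce_span h2 fun q hq => hz.2.1 q hq
    have h4 : (z * cQ D.pr1) * cQ H.Qir = cQ H.Qir * (z * cQ D.pr1)ᵀ := by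
      generalize z * cQ D.pr1 = w at h3 ⊢
      induction h3 using Submodule.span_induction with
      | mem w hw =>
        obtain ⟨q, hq, rfl⟩ := hw
        exact hadj q hq
      | zero => rw [Matrix.zero_mul, Matrix.transpose_zero, Matrix.mul_zero]
      | add a b _ _ ha hb => rw [Matrix.add_mul, Matrix.transpose_add, Matrix.mul_add, ha, hb]
      | smul c a _ ha => rw [Matrix.smul_mul, Matrix.transpose_smul, Matrix.mul_smul, ha]
    have h5 : z * cQ H.Qir = -(cQ H.Qir * zᵀ) := by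
      rw [eq_neg_iff_add_eq_zero]; exact hz.2.2
    have hzp : z * cQ D.pr1 = cQ D.pr1 * z := hz.2.1 _ D.pr1_HE
    have h6 : (z * cQ D.pr1) * cQ H.Qir = -((z * cQ D.pr1) * cQ H.Qir) := by
      conv_lhs => rw [h4, Matrix.transpose_mul]
      calc cQ H.Qir * ((cQ D.pr1)ᵀ * zᵀ) = (cQ H.Qir * (cQ D.pr1)ᵀ) * zᵀ := by
            rw [Matrix.mul_assoc]
        _ = cQ D.pr1 * (cQ H.Qir * zᵀ) := by rw [← hP, Matrix.mul_assoc]
        _ = -(cQ D.pr1 * (z * cQ H.Qir)) := by rw [h5, Matrix.mul_neg, neg_neg]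
        _ = _ := by rw [← Matrix.mul_assoc, hzp]
    have h7 : (z * cQ D.pr1) * cQ H.Qir = 0 := by
      rw [eq_neg_iff_add_eq_zero, ← two_smul ℂ] at h6
      exact (smul_eq_zero.1 h6).resolve_left two_ne_zero
    have h8 : z * cQ D.pr1 = 0 := by
      have h9 := congrArg (fun m => m * cQ H.Qr) h7
      simp only [Matrix.mul_assoc, Matrix.zero_mul] at h9
      have hQQ : cQ H.Qr * cQ H.Qir = 1 := by rw [← cQ_mul, H.Qr_Qir, cQ_one]
      rwa [mul_eq_one_comm.1 hQQ, Matrix.mul_one] at h9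
    exact D.dl_zero' hz h8
  rw [hz0, add_zero]
  exact hy

end IsGrad2

end Pool.Agent.L0h10.TM
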