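import Pool.Agent.L0h10.TS.Grd2

/-!
# The degrees of products
-/

set_option linter.unusedSectionVars false

namespace Pool.Agent.L0h10.TM

open Matrix Pool.Agent.N996.BP Pool.Agent.N996.FP Pool.Agent.L0h10.TS

variable {ι : Type} [Fintype ι] [DecidableEq ι] {H : HData ι} {A : Type} [Ring A] [Algebra ℂ A]

/-- The algebra is graded. -/
def Graded (D : AData H A) : Prop :=
  (∀ i j k, D.c k i j ≠ 0 → D.deg k = D.deg i + D.deg j) ∧ D.deg H.D.o = 0

variable {D : AData H A} (hG : Graded D)

include hG in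
lemma pL_deg : ∀ {m : ℕ} (v : Fin m → D.V) (i : ι), D.deg i ≠ m → D.ε (pL D.L v) i = 0
  | 0, v, i, hi => by
    have h1 : pL D.L v = 1 := by
      rw [pL, List.ofFn_zero, List.prod_nil]
    rw [h1, D.one, Pi.single_apply, if_neg]
    rintro rfl
    exact hi hG.2
  | m + 1, v, k, hk => by
    rw [pL_cons, D.prod_apply]
    refine Finset.sum_eq_zero fun i _ => Finset.sum_eq_zero fun j _ => ?_
    by_cases hi : D.deg i = 1
    · by_cases hj : D.deg j = m
      · have hc : D.c k i j = 0 := by
          by_contra h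
          have := hG.1 i j k h
          omega
        rw [hc, Rat.cast_zero, zero_mul]
      · rw [pL_deg (fun i => v i.succ) j hj, mul_zero, mul_zero]
    · have h1 : D.ε (D.L (v 0)) i = 0 := by
        have h2 : D.ε (D.L (v 0)) = (v 0 : ι → ℂ) := D.ε.apply_symm_apply _
        rw [h2]
        exact (v 0).2 i hi
      rw [h1, zero_mul, mul_zero]

include hG in
lemma prd_pL {m : ℕ} (v : Fin m → D.V) : cQ (prd D m) *ᵥ D.ε (pL D.L v) = D.ε (pL D.L v) := by
  funext i
  rw [cQ_prd, Matrix.mulVec_diagonal]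
  by_cases hi : D.deg i = m
  · rw [if_pos hi, one_mul]
  · rw [if_neg hi, zero_mul, pL_deg hG v i hi]

include hG in
/-- Products in orthonormal coordinates. -/
lemma prd_pv (htop : ∃ v : Fin (Module.finrank ℂ D.V) → D.V, pL D.L v ≠ 0) {m : ℕ}
    (v : Fin m → (D.toPDl htop).V) :
    cji H (cQ (prd D m)) *ᵥ (D.toPDl htop).pv v = (D.toPDl htop).pv v := by
  let v' : Fin m → D.V := fun j => ⟨Mi H *ᵥ (v j : ι → ℂ), (v j).2⟩
  have h1 : (D.toPDl htop).pv v = Mm H *ᵥ D.ε (pL D.L v') := rfl
  rw [h1, cji, ← Matrix.mulVec_mulVec, ← Matrix.mulVec_mulVec, Matrix.mulVec_mulVec _ (Mi H),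
    Mi_Mm, Matrix.one_mulVec, prd_pL hG]

include hG in
/-- A derivation which vanishes in the middle degree is zero. -/
theorem dl_zero_mid (htop : ∃ v : Fin (Module.finrank ℂ D.V) → D.V, pL D.L v ≠ 0) {g : ℕ}
    (hg : Module.finrank ℂ D.V = 2 * g) {w : Matrix ι ι ℂ} (hw : w ∈ D.dl)
    (h0 : w * cQ (prd D g) = 0) : w = 0 := by
  have hd := D.der_dl hw
  let f : D.V →ₗ[ℂ] D.V :=
    { toFun := fun v => ⟨w *ᵥ (v : ι → ℂ), D.V_dl hw v.2⟩
      map_add' := fun a b => Subtype.ext (Matrix.mulVec_add _ _ _)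
      map_smul' := fun c a => Subtype.ext (Matrix.mulVec_smul _ _ _) }
  have hf : ∀ v, aop D.ε w (D.L v) = D.L (f v) := by
    intro v
    have h1 : D.ε (D.L v) = (v : ι → ℂ) := D.ε.apply_symm_apply _
    rw [aop_apply, h1]
    rfl
  have hkill : ∀ u : Fin g → D.V, aop D.ε w (pL D.L u) = 0 := by
    intro u
    rw [aop_apply, ← prd_pL hG u, Matrix.mulVec_mulVec, h0, Matrix.zero_mulVec, map_zero]
  rcases Nat.eq_zero_or_pos g with hg0 | hg0
  · subst hg0
    have h1 : ∀ v : D.V, v = 0 := by
      have h2 : Module.finrank ℂ D.V = 0 := by omega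
      intro v
      exact (Module.finrank_zero_iff.1 h2).elim v 0
    refine D.dl_zero hw fun v hv => ?_
    have h2 := congrArg (fun x : D.V => (x : ι → ℂ)) (h1 ⟨v, hv⟩)
    have h3 : v = 0 := h2
    rw [h3, Matrix.mulVec_zero]
  · obtain ⟨n, rfl⟩ : ∃ n, g = n + 1 := ⟨g - 1, by omega⟩
    have hscal : ∀ v : D.V, ¬ LinearIndependent ℂ ![v, f v] := by
      intro v hli
      have key : ∀ m : ℕ, m ≤ n → ∃ (u : Fin (m + 2) → D.V) (x : Fin m → D.V),
          LinearIndependent ℂ u ∧ pL D.L u = D.L v * D.L (f v) * pL D.L x := by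
        intro m
        induction m with
        | zero =>
          intro _
          refine ⟨![v, f v], Fin.elim0, hli, ?_⟩
          rw [pL_cons, pL_cons]
          have h1 : ∀ u : Fin 0 → D.V, pL D.L u = 1 := fun u => by
            rw [pL, List.ofFn_zero, List.prod_nil]
          rw [h1, h1, mul_one, mul_one]
          rfl
        | succ m ih =>
          intro hm
          obtain ⟨u, x, hu, hux⟩ := ih (by omega)
          obtain ⟨y, hy⟩ := exists_linearIndependent_snoc_of_lt_finrank (R := ℂ) hu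
            (by omega)
          refine ⟨Fin.snoc (α := fun _ => D.V) u y, Fin.snoc (α := fun _ => D.V) x y, hy, ?_⟩
          rw [pL_snoc, pL_snoc, hux, mul_assoc]
      obtain ⟨u, x, hu, hux⟩ := key n le_rfl
      apply pL_ne' D.L D.L_sq htop u hu
      rw [hux]
      have h1 := hkill (Fin.cons v x)
      rw [pL_cons, Fin.cons_zero, hd, hf] at h1
      have h2 := congrArg (fun a => D.L v * a) h1
      simp only [mul_add, mul_zero] at h2
      rw [← mul_assoc (D.L v) (D.L v), D.L_sq, zero_mul, add_zero, ← mul_assoc] at h2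
      exact h2
    obtain ⟨c, hc⟩ := LinearMap.exists_eq_smul_id_of_forall_notLinearIndependent hscal
    have hc0 : c = 0 := by
      obtain ⟨b⟩ : Nonempty (Module.Basis (Fin (2 * (n + 1))) ℂ D.V) :=
        ⟨Module.finBasisOfFinrankEq ℂ D.V hg⟩
      let u : Fin (n + 1) → D.V := fun i => b ⟨i, by omega⟩
      have hu : LinearIndependent ℂ u :=
        b.linearIndependent.comp (fun i : Fin (n + 1) => (⟨i, by omega⟩ : Fin (2 * (n + 1))))
          fun i j h => Fin.ext (by simpa using h)
      have h1 := hkill u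
      rw [der_pL D.L (aop D.ε w) hd f hf] at h1
      have h2 : ∀ j, pL D.L (Function.update u j (f (u j))) = c • pL D.L u := by
        intro j
        have h3 : f (u j) = c • u j := by rw [hc]; rfl
        rw [h3, ← pA_apply _ D.L_sq, AlternatingMap.map_update_smul, Function.update_eq_self,
          pA_apply]
      simp only [h2, Finset.sum_const, Finset.card_univ, Fintype.card_fin] at h1
      rw [← Nat.cast_smul_eq_nsmul ℂ, smul_smul] at h1
      have h3 := (smul_eq_zero.1 h1).resolve_right (pL_ne' D.L D.L_sq htop u hu)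
      exact (mul_eq_zero.1 h3).resolve_left (by exact_mod_cast Nat.succ_ne_zero n)
    refine D.dl_zero hw fun v hv => ?_
    have h1 : f ⟨v, hv⟩ = 0 := by rw [hc, hc0, zero_smul]; rfl
    exact congrArg (fun x : D.V => (x : ι → ℂ)) h1

end Pool.Agent.L0h10.TM
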