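import Pool.Agent.L0h10.TM.Asm2

/-!
# The Mumford-Tate conjecture is decided in the middle degree
-/

set_option linter.unusedSectionVars false

open CategoryTheory AlgebraicGeometry TensorProduct Matrix

universe u v

namespace Pool.Agent.L0h10.TM

open Module
open Pool.Agent.H914 Pool.Agent.H914.VarClass Pool.Agent.H914.VarClass.Obj
  Pool.Agent.H914.WeilCohomology
open Pool.Agent.Y121.AHS
open Pool.Agent.Y133.Half (pw pfst psnd wb wb_zero ClassPred)
open Pool.Agent.Y121.AH (hodgePred)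
open Pool.Agent.N996.BP Pool.Agent.N996.FP Pool.Agent.N996.BP.Geo Pool.Agent.L0h10.TS

variable {k : Type u} [Field k] {𝒱 : VarClass k} {ops : CycleOps 𝒱} {T : HodgeTheory ops}
  {X : 𝒱.Obj} {L Ω : Type} [Field L] [Field Ω] [Algebra T.W.K L] [Algebra T.W.K Ω] [Algebra L Ω]
  [IsScalarTower T.W.K L Ω] {Γ : Type v} [Group Γ] [TopologicalSpace Γ]
  (G : GaloisAction T X Γ L)

section Centre

variable {ι : Type} [Fintype ι] [DecidableEq ι] {e : Basis ι T.W.K (T.W.H X)} {H : HData ι}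
  {A : Type} [Ring A] [Algebra ℂ A] {D : AData H A} (hdeg : ∀ j, e j ∈ T.W.gr X (D.deg j))

/-- The centre. -/
lemma centre_kill2 [CharZero L] [CharZero Ω] [IsTopologicalGroup Γ]
    (hB : ∀ n (a : (Fin (n + 1) → ι) → ℚ),
      cls (T := toH T) e n a ∈ (hodgePred (toH T)).sp (pw X n) ↔ a ∈ BB H (Fin (n + 1)))
    (θ : Ω ≃+* ℂ) {g : ℕ} (hyp : Hyp2 D (jj L θ) (toRep G e hdeg) g) (hGr : Graded D)
    (hg : Module.finrank ℂ D.V = 2 * g)
    (htop : ∃ v : Fin (Module.finrank ℂ D.V) → D.V, pL D.L v ≠ 0) (hC : CentreKillsTate Ω G)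
    (z : Matrix ι ι ℂ) (hz : z ∈ ho H)
    (hc : ∀ y ∈ Gs D (jj L θ) (toRep G e hdeg), z * y = y * z) (n : ℕ)
    (a : (Fin (n + 1) → ι) → L) (ha : (toRep G e hdeg).IsT n a) :
    dk (Fin (n + 1)) z *ᵥ (fun w => jj L θ (a w)) = 0 := by
  obtain ⟨z', hz'⟩ : ∃ z' : Matrix ι ι Ω, z' = z.map θ.symm := ⟨_, rfl⟩
  have hzz : z'.map θ = z := by
    rw [hz']
    ext i j
    exact θ.apply_symm_apply _
  have hcen : ∀ w ∈ ho H, z * w = w * z := by
    intro w hw
    exact (isGrad hyp).comm_ho hGr hg htop (D.ho_le_dl hz) hc hw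
  have h1 : KillsTate G (opOf e z') := by
    refine hC _ (opOf_inf e z') ((killsHodge_iff hB θ z').2 (by rw [hzz]; exact hz)) ?_
    intro E hE hE2 x
    obtain ⟨y, hy⟩ : ∃ y, y = mt (Z := X) e (E 0) := ⟨_, rfl⟩
    have h2 : E = opOf e y := by rw [hy]; exact inf_eq hE
    have h3 : y.map θ ∈ ho H := (killsHodge_iff hB θ y).1 (by rw [← h2]; exact hE2)
    have h4 : z' * y = y * z' := by
      have h5 := hcen _ h3
      rw [← hzz, ← map_mul_th, ← map_mul_th] at h5
      ext i j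
      exact θ.injective (congrFun (congrFun h5 i) j)
    obtain ⟨v, rfl⟩ := (vB Ω e).surjective (show HL T.W Ω X from x)
    have h5 : opOf e y 0 (vB Ω e v : HL T.W Ω X) = (vB Ω e (y *ᵥ v) : HL T.W Ω X) :=
      opOf_zero e y v
    have h6 : opOf e z' 0 (vB Ω e v : HL T.W Ω X) = (vB Ω e (z' *ᵥ v) : HL T.W Ω X) :=
      opOf_zero e z' v
    have h7 : opOf e z' 0 (vB Ω e (y *ᵥ v) : HL T.W Ω X) =
      (vB Ω e (z' *ᵥ (y *ᵥ v)) : HL T.W Ω X) := opOf_zero e z' _
    have h8 : opOf e y 0 (vB Ω e (z' *ᵥ v) : HL T.W Ω X) =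
      (vB Ω e (y *ᵥ (z' *ᵥ v)) : HL T.W Ω X) := opOf_zero e y _
    rw [h2]
    refine ((congrArg (opOf e z' 0) h5).trans h7).trans
      (Eq.trans ?_ ((congrArg (opOf e y 0) h6).trans h8).symm)
    rw [Matrix.mulVec_mulVec, Matrix.mulVec_mulVec, h4]
  have h2 := (killsTate_iff G hdeg θ z').1 h1 n a ha
  rwa [hzz] at h2

end Centre

/-- **The Tate classes are combinations of Hodge classes, if it is so in the middle degree.** -/
theorem tate_hodge2 [CharZero L] [CharZero Ω] [Algebra.IsAlgebraic L Ω] [IsTopologicalGroup Γ]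
    (θ : Ω ≃+* ℂ) {ψ : Pool.Agent.N996.FP.RForm T.W X} (hψ : Pool.Agent.N996.FP.IsPolarisation T X ψ)
    (hX : OfAbelianType T X) (h1 : HodgeClassesAreTate G) (h2 : ActsSemisimply G)
    (h3 : WeakHodgeOperatorsGenerate Ω G)
    (h4 : SelfAdjointCentre T X ψ ∨ CentreKillsTate Ω G) (hT : Mid G X.dim) :
    TateClassesAreHodge G := by
  intro n j x hx
  rcases subsingleton_or_nontrivial (T.W.H X) with hs | hs
  · have h5 : Subsingleton (T.W.H (pw X n)) := by
      have h6 : finrank T.W.K (T.W.H (pw X n)) = 0 := by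
        rw [Pool.Agent.Y133.Half.finrank_pw, finrank_zero_of_subsingleton,
          zero_pow (Nat.succ_ne_zero n)]
      exact finrank_zero_iff.1 h6
    have h6 : ∀ y : L ⊗[T.W.K] T.W.H (pw X n), y = 0 := by
      intro y
      induction y using TensorProduct.induction_on with
      | zero => rfl
      | add a b ha hb => rw [ha, hb, add_zero]
      | tmul l c => rw [Subsingleton.elim c 0, TensorProduct.tmul_zero]
    have h7 : x = 0 := h6 x
    rw [h7]
    exact Submodule.zero_mem _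
  have hnt : Nontrivial ((toH T).W.H X) := hs
  obtain ⟨ι, _, _, e, H, A, _, _, D, hdeg, htop, hP, hQ, hB, hadj, hGr, hg⟩ :=
    exists_data2 (T := toH T) hψ.toBP.isPHS hX.1 hX.2
  have hyp := hyp_of2 (T := T) (e := e) G hdeg hQ hB θ h1 h2 h3 hT
  obtain ⟨z, rfl⟩ := (ve L e n).surjective x
  have ha : (toRep (T := T) G e hdeg).IsT n z := (isT_iff (T := T) G e hdeg).2 ⟨j, hx⟩
  have h5 : z ∈ Submodule.span L (cL L '' (BB H (Fin (n + 1)) : Set _)) := by
    rcases h4 with h4 | h4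
    · exact arr_adj hyp hGr hg htop hP (hadj fun f hf => h4 f (isCentral_iff.2 hf)) ha
    · exact arr_cen hyp hGr hg htop hP (centre_kill2 G hdeg hB θ hyp hGr hg htop h4) ha
  have h6 := hp_span (T := T) (e := e) hdeg hB h5 j
  have h7 : hp D.deg j z = z := by
    funext w
    rw [hp]
    by_cases hw : ∑ i, D.deg (w i) = 2 * j
    · rw [if_pos hw]
    · rw [if_neg hw]
      by_contra h8
      exact hw ((isDeg_ve (W := T.W) (e := e) hdeg).1 hx.1 w (Ne.symm h8))
  rwa [h7] at h6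


/-- Combinations of cycles are combinations of Hodge classes. -/
lemma comb_alg {n j : ℕ} {x : HL T.W L (pw X n)}
    (hx : IsComb L (fun y => ∃ z, (pw X n).IsCyc j z ∧ emL T.W L (T.W.cl (pw X n) z) = y) x) :
    IsComb L (fun y => ∃ c, IsHodge T (pw X n) j c ∧ emL T.W L c = y) x := by
  refine Submodule.span_mono ?_ hx
  rintro _ ⟨z, hz, rfl⟩
  exact ⟨_, T.cyc _ _ z hz, rfl⟩

end Pool.Agent.L0h10.TM
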